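import Mathlib

set_option autoImplicit false

namespace Pool.Agent.Results.MP_3cee42_co.NotPlain

open scoped symmDiff

/-- An additive poset: an abelian group with a partial order such that `b, c ≤ a` implies
`b + c ≤ a`, and `a ≤ b, c` implies `a ≤ a + b + c`. -/
def IsAdditivePoset (A : Type) [AddCommGroup A] [PartialOrder A] : Prop :=
  (∀ a b c : A, b ≤ a → c ≤ a → b + c ≤ a) ∧ (∀ a b c : A, a ≤ b → a ≤ c → a ≤ a + b + c)

/-- `A` is plain: it embeds in the additive powerset `2^I` of a finite set `I` (subsets with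
symmetric difference and inclusion). -/
def IsPlain (A : Type) [AddCommGroup A] [PartialOrder A] : Prop :=
  ∃ (I : Type) (_ : Finite I) (φ : A → Set I), Function.Injective φ ∧
    (∀ a b, φ (a + b) = φ a ∆ φ b) ∧ ∀ a b, a ≤ b ↔ φ a ⊆ φ b

/-- The group `(ℤ/2)^4`. -/
abbrev V : Type := ZMod 2 × ZMod 2 × ZMod 2 × ZMod 2

/-- The pairs `(a, b)` with `a < b`, `a ≠ 0`. -/
def rel (a b : V) : Bool :=
  (b == (1,0,0,1) && (a == (1,0,0,0) || a == (0,0,0,1))) ||
  (b == (1,1,1,1) && (a == (1,1,0,0) || a == (0,0,1,1))) ||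
  (b == (1,1,0,1) && (a == (1,0,1,0) || a == (0,1,1,1))) ||
  (b == (1,0,1,1) && (a == (1,1,1,0) || a == (0,1,0,1)))

/-- The order. -/
def leB (a b : V) : Bool := a == b || a == 0 || rel a b

/-- A copy of the group, carrying the new order. -/
structure W where
  val : V
deriving DecidableEq

instance : Fintype W := Fintype.ofEquiv V ⟨W.mk, W.val, fun _ => rfl, fun _ => rfl⟩

/-- The bijection with the group. -/
def eqv : W ≃ V := ⟨W.val, W.mk, fun _ => rfl, fun _ => rfl⟩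

instance : AddCommGroup W := eqv.addCommGroup

instance : PartialOrder W where
  le a b := leB a.val b.val = true
  le_refl := by decide
  le_trans := by decide +kernel
  le_antisymm := by decide +kernel

instance (a b : W) : Decidable (a ≤ b) := inferInstanceAs (Decidable (leB a.val b.val = true))

lemma isAdditivePoset : IsAdditivePoset W := by
  constructor
  · decide +kernel
  · decide +kernel

/-- The boolean contradiction. -/
lemma bool_key : ∀ x y z : Bool, (x && z) = false → ((x ^^ true) && (y ^^ z)) = false →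
    ((x ^^ y) && (true ^^ (y ^^ z))) = false → ((x ^^ (true ^^ y)) && (true ^^ z)) = false →
    False := by
  decide

/-- **No.** There is an additive poset with 16 elements which is not plain. -/
theorem result : ∃ (A : Type) (_ : AddCommGroup A) (_ : PartialOrder A) (_ : Finite A),
    IsAdditivePoset A ∧ ¬ IsPlain A := by
  classical
  refine ⟨W, inferInstance, inferInstance, inferInstance, isAdditivePoset, ?_⟩
  rintro ⟨I, _, φ, hinj, hadd, hle⟩
  have hzero : φ 0 = ∅ := by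
    have h := hadd 0 0
    rw [add_zero] at h
    rw [h, symmDiff_self]
    rfl
  obtain ⟨i, hi⟩ : (φ ⟨(0, 1, 0, 0)⟩).Nonempty := by
    rw [Set.nonempty_iff_ne_empty, ← hzero]
    intro h
    have := hinj h
    revert this
    decide
  let f : W → Bool := fun a => decide (i ∈ φ a)
  have fadd : ∀ a b, f (a + b) = (f a ^^ f b) := by
    intro a b
    simp only [f, hadd, Set.mem_symmDiff]
    by_cases h1 : i ∈ φ a <;> by_cases h2 : i ∈ φ b <;> simp [h1, h2]
  have find : ∀ a b, a ≤ a + b → (f a && f b) = false := by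
    intro a b h
    by_contra hcon
    have h1 : (f a && f b) = true := by simpa using hcon
    rw [Bool.and_eq_true] at h1
    have h2 : i ∈ φ a := of_decide_eq_true h1.1
    have h3 : f (a + b) = true := decide_eq_true ((hle _ _).1 h h2)
    rw [fadd, h1.1, h1.2] at h3
    exact absurd h3 (by decide)
  have f2 : f ⟨(0, 1, 0, 0)⟩ = true := decide_eq_true hi
  have e3 : f ⟨(1, 1, 0, 0)⟩ = (f ⟨(1, 0, 0, 0)⟩ ^^ true) := by
    rw [← f2, ← fadd]
    rfl
  have e12 : f ⟨(0, 0, 1, 1)⟩ = (f ⟨(0, 0, 1, 0)⟩ ^^ f ⟨(0, 0, 0, 1)⟩) := by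
    rw [← fadd]
    rfl
  have e5 : f ⟨(1, 0, 1, 0)⟩ = (f ⟨(1, 0, 0, 0)⟩ ^^ f ⟨(0, 0, 1, 0)⟩) := by
    rw [← fadd]
    rfl
  have e14 : f ⟨(0, 1, 1, 1)⟩ = (true ^^ (f ⟨(0, 0, 1, 0)⟩ ^^ f ⟨(0, 0, 0, 1)⟩)) := by
    rw [← fadd, ← f2, ← fadd]
    rfl
  have e7 : f ⟨(1, 1, 1, 0)⟩ = (f ⟨(1, 0, 0, 0)⟩ ^^ (true ^^ f ⟨(0, 0, 1, 0)⟩)) := by
    rw [← f2, ← fadd, ← fadd]
    rfl
  have e10 : f ⟨(0, 1, 0, 1)⟩ = (true ^^ f ⟨(0, 0, 0, 1)⟩) := by
    rw [← f2, ← fadd]
    rfl
  have k1 := find ⟨(1, 0, 0, 0)⟩ ⟨(0, 0, 0, 1)⟩ (by decide)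
  have k2 := find ⟨(1, 1, 0, 0)⟩ ⟨(0, 0, 1, 1)⟩ (by decide)
  have k3 := find ⟨(1, 0, 1, 0)⟩ ⟨(0, 1, 1, 1)⟩ (by decide)
  have k4 := find ⟨(1, 1, 1, 0)⟩ ⟨(0, 1, 0, 1)⟩ (by decide)
  rw [e3, e12] at k2
  rw [e5, e14] at k3
  rw [e7, e10] at k4
  exact bool_key _ _ _ k1 k2 k3 k4

end Pool.Agent.Results.MP_3cee42_co.NotPlain
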